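import Pool.Agent.U607.AllE

/-!
# All elliptic curves over `ℚ` together, over other number fields, on the edge of convergence

Let `F` be a number field and `E` an elliptic curve over `ℚ`.  The analytic continuation of the
L-series `L(E/F, s)` of `E` over `F`, or of its quadratic twists over `F`, is not known in general, if
`F` is neither totally real nor CM and `F/ℚ` is not solvable.  The theorem is about the zeros and the
poles of these functions on the line `Re s = 3/2`, the edge of the half plane of absolute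
convergence, for all elliptic curves over `ℚ` up to isogeny at the same time.

Let `E_i : y² = x³ + a_i x + b_i`, `i ∈ ι`, be (finitely or infinitely many) modular elliptic curves over
`ℚ` (by the modularity theorem all elliptic curves over `ℚ` are modular), no two of them isogenous.

1. There is a joint Bessel inequality for all curves `E_i`, all heights `τ` and all linear combinations
of quadratic twists over number fields.
2. Over a fixed number field `F` and for a fixed `D ∈ F^*` let `r` be the number of simple factors of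
`F ⊗ F` in which `D ⊗ D` is a square (`r` is the number of the orbits of the Galois group on the pairs of
embeddings of `F` if `D = 1`), so `r ≤ [F : ℚ]`.  For all but at most `r` of the curves `E_i` the L-series of the
twist of `E_i` by `D` over `F` has no pole on the whole line `Re s = 3/2`, as far as it continues; for all
but at most `r` of the curves it has no zero; and off the point `3/2` there are at most `r / 2` curves with
poles and at most `r / 2` with zeros.
3. Comparison with `ℚ`: let `r` be the number of simple factors of `F ⊗ F`.  For all but at most `r - 1`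
of the curves the order of `L(E_i/F, s)` is at most the order of `L(E_i/ℚ, s)` at all points of the line,
for all but at most `r - 1` it is at least the order of `L(E_i/ℚ, s)`, and off the point `3/2` there are at
most `(r - 1) / 2` exceptions each.  For `r = 2` (the Galois group acts doubly transitively on the
embeddings of `F`, for instance with the group `S_n` or `A_n`) there are no exceptions off the point
`3/2`, and at the point `3/2` at most one curve in each of the two directions.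

Proof.  Up to `o(log (1/ε))`, `log |L(3/2 + iτ + ε)|` is the sum of `p^{-1-ε} t_p p^{-iτ} χ(Frob_p)` over the
primes, where `t_p = a_p / √p` and `χ` is the character of the representation induced from the
quadratic character of `F(√D)/F` (library, projects W353 and H341R2).  The Rankin-Selberg method gives
upper bounds for the inner products of the functions `t_p(E_i) p^{-iτ}` (library, projects Y722 and
Y149), which are enough for a Bessel inequality for positive parts; real L-series give the same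
values at `τ` and `-τ`, and the inner products of the characters `χ` are the numbers `pairing`.
-/

set_option autoImplicit false
set_option linter.unusedSectionVars false
open Classical

namespace Pool.Agent.Results.MP_7ed9c3_nt.AllCurvesOverQ

open NumberField IsDedekindDomain Filter Topology CongruenceSubgroup
open scoped MatrixGroups TensorProduct

/-- The number of the points of `y² = x³ + a x + b` with coordinates in `R`, the point at infinity
included. -/
noncomputable def points (R : Type) [CommRing R] (a b : ℤ) : ℕ :=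
  Nat.card {P : R × R // P.2 ^ 2 = P.1 ^ 3 + a * P.1 + b} + 1

/-- The Fourier coefficients of a cusp form. -/
noncomputable def coefficient {N : ℕ} (f : CuspForm (Gamma0 N : Subgroup (GL (Fin 2) ℝ)) 2)
    (n : ℕ) : ℂ := (UpperHalfPlane.qExpansion 1 f).coeff n

/-- `f` is a normalised cusp form of weight two on `Γ₀(N)` with the properties of the newform of the
elliptic curve `y² = x³ + a x + b`: real Fourier coefficients `c(n)`, `c(1) = 1`, the Hecke relations,
the bounds `|c(p)| ≤ 2 √p` for primes `p ∤ N` and `|c(p)| ≤ 1` for `p ∣ N`, and for every prime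
`p ∤ 2 (4 a³ + 27 b²)`, `p` does not divide `N` and `c(p) = p + 1 - #E(𝔽_p)`. -/
structure IsNewformOf {N : ℕ} (f : CuspForm (Gamma0 N : Subgroup (GL (Fin 2) ℝ)) 2) (a b : ℤ) :
    Prop where
  one : coefficient f 1 = 1
  real : ∀ n, (coefficient f n).im = 0
  mul : ∀ m n : ℕ, Nat.Coprime m n → coefficient f (m * n) = coefficient f m * coefficient f n
  pow : ∀ p j : ℕ, p.Prime → coefficient f (p ^ (j + 2)) =
    coefficient f p * coefficient f (p ^ (j + 1)) -
      (if p ∣ N then 0 else (p : ℂ) * coefficient f (p ^ j))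
  good : ∀ p : ℕ, p.Prime → ¬ p ∣ N → ‖coefficient f p‖ ≤ 2 * Real.sqrt p
  bad : ∀ p : ℕ, p.Prime → p ∣ N → ‖coefficient f p‖ ≤ 1
  trace : ∀ p : ℕ, p.Prime → ¬ (p : ℤ) ∣ 2 * (4 * a ^ 3 + 27 * b ^ 2) →
    ¬ p ∣ N ∧ coefficient f p = (p : ℂ) + 1 - points (ZMod p) a b

/-- The elliptic curve `y² = x³ + a x + b` is modular. -/
def IsModular (a b : ℤ) : Prop :=
  ∃ (N : ℕ) (_ : NeZero N) (f : CuspForm (Gamma0 N : Subgroup (GL (Fin 2) ℝ)) 2), IsNewformOf f a b

/-- For a prime `p ∤ 2 Δ Δ'` the curves have different numbers of points over `𝔽_p`.  By the theorem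
of Faltings this means that the elliptic curves are not isogenous over `ℚ`. -/
def NotIsogenous (a b a' b' : ℤ) : Prop :=
  ∃ p : ℕ, p.Prime ∧ ¬ (p : ℤ) ∣ 2 * (4 * a ^ 3 + 27 * b ^ 2) ∧
    ¬ (p : ℤ) ∣ 2 * (4 * a' ^ 3 + 27 * b' ^ 2) ∧ points (ZMod p) a b ≠ points (ZMod p) a' b'

/-- The curve `y² = x³ + a x + b` over `ℚ`. -/
def curve (a b : ℤ) : WeierstrassCurve ℚ where
  a₁ := 0
  a₂ := 0
  a₃ := 0
  a₄ := a
  a₆ := b

/-- The quadratic twist `y² = x³ - 27 d² c₄(E) x - 54 d³ c₆(E)` of `E` by `d`; for `d = 1` it is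
isomorphic to `E`. -/
noncomputable def twist {F : Type} [Field F] (E : WeierstrassCurve F) (d : F) :
    WeierstrassCurve F where
  a₁ := 0
  a₂ := 0
  a₃ := 0
  a₄ := -27 * d ^ 2 * E.c₄
  a₆ := -54 * d ^ 3 * E.c₆

/-- `V v` is, for every `v`, an integral model of `E` with discriminant minimal at `v`. -/
def MinimalModels {F : Type} [Field F] [NumberField F] (E : WeierstrassCurve F)
    (V : HeightOneSpectrum (𝓞 F) → WeierstrassCurve (𝓞 F)) : Prop :=
  ∀ v : HeightOneSpectrum (𝓞 F),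
    (∃ C : WeierstrassCurve.VariableChange F, C • E = (V v).map (algebraMap (𝓞 F) F)) ∧
    ∀ W : WeierstrassCurve (𝓞 F),
      (∃ C : WeierstrassCurve.VariableChange F, C • E = W.map (algebraMap (𝓞 F) F)) →
        ∀ n : ℕ, (V v).Δ ∈ v.asIdeal ^ n → W.Δ ∈ v.asIdeal ^ n

/-- The Euler product of the problem, computed from the reductions of the models `V v`: the factor at
`v` is `(1 - a_v q_v^{-s} + q_v^{1 - 2s})⁻¹` if the reduction is good and `(1 - a_v q_v^{-s})⁻¹` if it
is bad, where `a_v` is `q_v` minus the number of the affine points of the reduction (`1`, `-1` or `0`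
if the reduction is split multiplicative, non-split multiplicative or additive). -/
noncomputable def LSeries {F : Type} [Field F] [NumberField F]
    (V : HeightOneSpectrum (𝓞 F) → WeierstrassCurve (𝓞 F)) (s : ℂ) : ℂ :=
  ∏' v : HeightOneSpectrum (𝓞 F),
    (1 - ((((Ideal.absNorm v.asIdeal : ℕ) : ℤ) -
          ((Nat.card {p : (𝓞 F ⧸ v.asIdeal) × (𝓞 F ⧸ v.asIdeal) //
            p.2 ^ 2 + Ideal.Quotient.mk v.asIdeal (V v).a₁ * p.1 * p.2
              + Ideal.Quotient.mk v.asIdeal (V v).a₃ * p.2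
            = p.1 ^ 3 + Ideal.Quotient.mk v.asIdeal (V v).a₂ * p.1 ^ 2
              + Ideal.Quotient.mk v.asIdeal (V v).a₄ * p.1
              + Ideal.Quotient.mk v.asIdeal (V v).a₆} : ℕ) : ℤ) : ℤ) : ℂ)
          * ((Ideal.absNorm v.asIdeal : ℕ) : ℂ) ^ (-s)
      + (if (V v).Δ ∈ v.asIdeal then (0 : ℂ) else 1)
          * ((Ideal.absNorm v.asIdeal : ℕ) : ℂ) ^ (1 - 2 * s))⁻¹

/-- `log |L(3/2 + iτ + ε)| / log(1/ε)`; for a function with a meromorphic continuation of order `m` at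
`3/2 + iτ` it tends to `-m` as `ε → 0+`. -/
noncomputable def size {F : Type} [Field F] [NumberField F]
    (V : HeightOneSpectrum (𝓞 F) → WeierstrassCurve (𝓞 F)) (τ ε : ℝ) : ℝ :=
  Real.log ‖LSeries V (3 / 2 + τ * Complex.I + ε)‖ / Real.log (1 / ε)

/-- The Euler product has a meromorphic continuation to a neighbourhood of `3/2 + iτ`, of order `m` at
`3/2 + iτ` (`m < 0` for a pole, `m > 0` for a zero). -/
def HasOrder {F : Type} [Field F] [NumberField F]
    (V : HeightOneSpectrum (𝓞 F) → WeierstrassCurve (𝓞 F)) (τ : ℝ) (m : ℤ) : Prop :=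
  ∃ Λ : ℂ → ℂ, MeromorphicAt Λ (3 / 2 + τ * Complex.I) ∧
    (∀ᶠ s in 𝓝 ((3 / 2 : ℂ) + τ * Complex.I), (3 / 2 : ℝ) < s.re → Λ s = LSeries V s) ∧
    meromorphicOrderAt Λ (3 / 2 + τ * Complex.I) = m

/-- The number of simple factors of `F ⊗ F'` in which `D ⊗ D'` is a square: the inner product of the
characters of the representations of the absolute Galois group of `ℚ` which are induced from the
quadratic characters of `F(√D)/F` and `F'(√D')/F'`. -/
noncomputable def pairing {F F' : Type} [Field F] [NumberField F] [Field F'] [NumberField F']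
    (D : F) (D' : F') : ℕ :=
  Nat.card {m : MaximalSpectrum (F ⊗[ℚ] F') // IsSquare (Ideal.Quotient.mk m.asIdeal (D ⊗ₜ[ℚ] D'))}

/-- The weight of a member `(i, τ)` of `S`: it is `2` if `τ ≠ 0` and `(i, -τ)` is not in `S`, and `1`
otherwise. -/
noncomputable def weight {ι : Type} (S : Finset (ι × ℝ)) (s : ι × ℝ) : ℝ :=
  if s.2 ≠ 0 ∧ (s.1, -s.2) ∉ S then 2 else 1

section
variable {ι : Type}

/-- **The joint Bessel inequality.**  Let `F_k` be finitely many number fields, `D_k ∈ F_k^*`, and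
`L(i, k, s)` the L-series of the twist by `D_k` of the curve `y² = x³ + a_i x + b_i` over `F_k`.  Then for
every finite set `S` of pairs `(i, τ)`, with the notation `x(i, τ, k) = log |L(i, k, 3/2 + iτ + ε)| /
log(1/ε)`, and all real `c_k`, uniformly for bounded `c_k`,
`∑_{(i, τ) ∈ S} w(i, τ) max(∑_k c_k x(i, τ, k), 0)² ≤ ∑_k ∑_l c_k c_l ⟨D_k, D_l⟩ + o(1)` as `ε → 0+`, and the same
holds with the orders at the points `3/2 + iτ` instead of the numbers `x(i, τ, k)`, if the functions have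
continuations to neighbourhoods of these points. -/
def JointInequality (a b : ι → ℤ) : Prop :=
  ∀ (κ : Type) [Fintype κ] (F : κ → Type) [∀ k, Field (F k)] [∀ k, NumberField (F k)]
    (D : ∀ k, 𝓞 (F k)) (V : ∀ (_ : ι) (k : κ), HeightOneSpectrum (𝓞 (F k)) →
      WeierstrassCurve (𝓞 (F k))),
    (∀ k, D k ≠ 0) →
    (∀ i k, MinimalModels (twist ((curve (a i) (b i)).map (algebraMap ℚ (F k))) (D k : F k))
      (V i k)) →
    ∀ S : Finset (ι × ℝ),
      (∀ C η : ℝ, 0 < η → ∀ᶠ ε : ℝ in 𝓝[>] 0, ∀ c : κ → ℝ, (∀ k, |c k| ≤ C) →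
        ∑ s ∈ S, weight S s * (max (∑ k, c k * size (V s.1 k) s.2 ε) 0) ^ 2 ≤
          ∑ k, ∑ l, c k * c l * pairing (D k : F k) (D l : F l) + η) ∧
      ∀ m : ι × ℝ → κ → ℤ, (∀ s ∈ S, ∀ k, HasOrder (V s.1 k) s.2 (m s k)) → ∀ c : κ → ℝ,
        ∑ s ∈ S, weight S s * (max (∑ k, c k * m s k) 0) ^ 2 ≤
          ∑ k, ∑ l, c k * c l * pairing (D k : F k) (D l : F l)

/-- **One field and one twist.**  Let `F` be a number field, `D ∈ F^*`, `r = ⟨D, D⟩`, and `T` a set of
pairs `(i, τ)` for which the L-series of the twist by `D` of the curve `y² = x³ + a_i x + b_i` over `F` has a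
continuation to a neighbourhood of `3/2 + iτ`, of order `m(i, τ)` there (for instance the set of all such
pairs).  Then `r ≤ [F : ℚ]`, `m(i, τ) = 0` for all but finitely many members of `T`, there are at most `r`
curves with poles (`m < 0`) and at most `r` curves with zeros (`m > 0`), and at most `r / 2` curves with
poles and at most `r / 2` curves with zeros off the real axis. -/
def OneField (a b : ι → ℤ) : Prop :=
  ∀ (F : Type) [Field F] [NumberField F] (D : 𝓞 F)
    (V : ι → HeightOneSpectrum (𝓞 F) → WeierstrassCurve (𝓞 F)), D ≠ 0 →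
    (∀ i, MinimalModels (twist ((curve (a i) (b i)).map (algebraMap ℚ F)) (D : F)) (V i)) →
    pairing (D : F) (D : F) ≤ Module.finrank ℚ F ∧
    ∀ (T : Set (ι × ℝ)) (m : ι × ℝ → ℤ), (∀ x ∈ T, HasOrder (V x.1) x.2 (m x)) →
      {x ∈ T | m x ≠ 0}.Finite ∧
      {i | ∃ τ, (i, τ) ∈ T ∧ m (i, τ) < 0}.ncard ≤ pairing (D : F) (D : F) ∧
      {i | ∃ τ, (i, τ) ∈ T ∧ 0 < m (i, τ)}.ncard ≤ pairing (D : F) (D : F) ∧
      2 * {i | ∃ τ, τ ≠ 0 ∧ (i, τ) ∈ T ∧ m (i, τ) < 0}.ncard ≤ pairing (D : F) (D : F) ∧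
      2 * {i | ∃ τ, τ ≠ 0 ∧ (i, τ) ∈ T ∧ 0 < m (i, τ)}.ncard ≤ pairing (D : F) (D : F)

/-- **Comparison with `ℚ`.**  Let `F` be a number field, `r = ⟨1, 1⟩` the number of simple factors of
`F ⊗ F`, and let `V₀ i`, `V i` be minimal models of the curve `y² = x³ + a_i x + b_i` over `ℚ` and over `F`.
With `x₀(i, τ) = log |L(3/2 + iτ + ε)| / log(1/ε)` for the L-series over `ℚ` and `x(i, τ)` for the L-series
over `F`, `∑_{(i, τ) ∈ S} w(i, τ) max(x - x₀, 0)² ≤ r - 1 + o(1)` as `ε → 0+`, for every finite set `S` of pairs,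
and the same for `x₀ - x`.  If the L-series over `ℚ` and over `F` have the orders `m₀(i, τ)` and `m(i, τ)`
at `3/2 + iτ` for `(i, τ) ∈ T`, then `m₀ = 0` for `τ ≠ 0`; `m = m₀` for all but finitely many members of
`T`; `m < m₀` for at most `r - 1` curves, `m > m₀` for at most `r - 1` curves; and there are at most
`(r - 1) / 2` curves with a pole (`m < 0`) and at most `(r - 1) / 2` curves with a zero of the L-series
over `F` at a point with `τ ≠ 0`. -/
def OverQ (a b : ι → ℤ) : Prop :=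
  ∀ (F : Type) [Field F] [NumberField F]
    (V₀ : ι → HeightOneSpectrum (𝓞 ℚ) → WeierstrassCurve (𝓞 ℚ))
    (V : ι → HeightOneSpectrum (𝓞 F) → WeierstrassCurve (𝓞 F)),
    (∀ i, MinimalModels (curve (a i) (b i)) (V₀ i)) →
    (∀ i, MinimalModels ((curve (a i) (b i)).map (algebraMap ℚ F)) (V i)) →
    (∀ (S : Finset (ι × ℝ)) (η : ℝ), 0 < η → ∀ᶠ ε : ℝ in 𝓝[>] 0,
      ∑ s ∈ S, weight S s * (max (size (V s.1) s.2 ε - size (V₀ s.1) s.2 ε) 0) ^ 2 ≤
        (pairing (1 : F) (1 : F) : ℝ) - 1 + η ∧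
      ∑ s ∈ S, weight S s * (max (size (V₀ s.1) s.2 ε - size (V s.1) s.2 ε) 0) ^ 2 ≤
        (pairing (1 : F) (1 : F) : ℝ) - 1 + η) ∧
    ∀ (T : Set (ι × ℝ)) (m₀ m : ι × ℝ → ℤ),
      (∀ x ∈ T, HasOrder (V₀ x.1) x.2 (m₀ x) ∧ HasOrder (V x.1) x.2 (m x)) →
      (∀ x ∈ T, x.2 ≠ 0 → m₀ x = 0) ∧ {x ∈ T | m x ≠ m₀ x}.Finite ∧
      {i | ∃ τ, (i, τ) ∈ T ∧ m (i, τ) < m₀ (i, τ)}.ncard + 1 ≤ pairing (1 : F) (1 : F) ∧
      {i | ∃ τ, (i, τ) ∈ T ∧ m₀ (i, τ) < m (i, τ)}.ncard + 1 ≤ pairing (1 : F) (1 : F) ∧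
      2 * {i | ∃ τ, τ ≠ 0 ∧ (i, τ) ∈ T ∧ m (i, τ) < 0}.ncard + 1 ≤ pairing (1 : F) (1 : F) ∧
      2 * {i | ∃ τ, τ ≠ 0 ∧ (i, τ) ∈ T ∧ 0 < m (i, τ)}.ncard + 1 ≤ pairing (1 : F) (1 : F)

end

open Pool.Agent.U607.AllE (PP QQ core_w core_two to_orders inum_le inum_pos')
open Pool.Agent.W353.AB (Sy syE)
open Pool.Agent.W353.TP (inum)

theorem coe_int (n : ℤ) : (((n : ℤ) : 𝓞 ℚ) : ℚ) = n := map_intCast (algebraMap (𝓞 ℚ) ℚ) n

theorem cond4 (a b : ℤ) : ((PP a : 𝓞 ℚ) : ℚ) = ((1 : 𝓞 ℚ) : ℚ) ^ 4 * (curve a b).c₄ := by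
  unfold PP
  rw [coe_int]
  have e : ((1 : 𝓞 ℚ) : ℚ) = 1 := rfl
  rw [e]
  unfold curve
  simp only [WeierstrassCurve.c₄, WeierstrassCurve.b₂, WeierstrassCurve.b₄]
  push_cast
  ring

theorem cond6 (a b : ℤ) : ((QQ b : 𝓞 ℚ) : ℚ) = ((1 : 𝓞 ℚ) : ℚ) ^ 6 * (curve a b).c₆ := by
  unfold QQ
  rw [coe_int]
  have e : ((1 : 𝓞 ℚ) : ℚ) = 1 := rfl
  rw [e]
  unfold curve
  simp only [WeierstrassCurve.c₆, WeierstrassCurve.b₂, WeierstrassCurve.b₄, WeierstrassCurve.b₆]
  push_cast
  ring

theorem condD {a b : ℤ} (h : 4 * a ^ 3 + 27 * b ^ 2 ≠ 0) : (PP a) ^ 3 - (QQ b) ^ 2 ≠ 0 := by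
  unfold PP QQ
  have e : ((-48 * a : ℤ) : 𝓞 ℚ) ^ 3 - ((-864 * b : ℤ) : 𝓞 ℚ) ^ 2 =
      ((-27648 * (4 * a ^ 3 + 27 * b ^ 2) : ℤ) : 𝓞 ℚ) := by
    push_cast
    ring
  rw [e, Int.cast_ne_zero]
  exact mul_ne_zero (by norm_num) h

section
variable {F : Type} [Field F] [NumberField F] {a b : ℤ} (h : 4 * a ^ 3 + 27 * b ^ 2 ≠ 0)

include h in
theorem size_twist {D : 𝓞 F} (hD : D ≠ 0) {V : HeightOneSpectrum (𝓞 F) → WeierstrassCurve (𝓞 F)}
    (hV : MinimalModels (twist ((curve a b).map (algebraMap ℚ F)) (D : F)) V) (τ : ℝ) :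
    (∀ᶠ ε : ℝ in 𝓝[>] 0, LSeries V (3 / 2 + τ * Complex.I + ε) ≠ 0) ∧
    (syE (PP a) (QQ b)).IsSize (F := F) (fun _ => D) τ (size V τ) :=
  Pool.Agent.W353.AB.size_E (curve a b) one_ne_zero (cond4 a b) (cond6 a b) (condD h) hD V hV τ

include h in
theorem size_base {V : HeightOneSpectrum (𝓞 F) → WeierstrassCurve (𝓞 F)}
    (hV : MinimalModels ((curve a b).map (algebraMap ℚ F)) V) (τ : ℝ) :
    (∀ᶠ ε : ℝ in 𝓝[>] 0, LSeries V (3 / 2 + τ * Complex.I + ε) ≠ 0) ∧
    (syE (PP a) (QQ b)).IsSize (F := F) (fun _ => 1) τ (size V τ) :=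
  Pool.Agent.W353.NF.size_EF (curve a b) one_ne_zero (cond4 a b) (cond6 a b) (condD h) V hV τ

theorem orders {V : HeightOneSpectrum (𝓞 F) → WeierstrassCurve (𝓞 F)} {τ : ℝ}
    (h : ∀ᶠ ε : ℝ in 𝓝[>] 0, LSeries V (3 / 2 + τ * Complex.I + ε) ≠ 0) {m : ℤ}
    (hm : HasOrder V τ m) : Tendsto (size V τ) (𝓝[>] 0) (𝓝 (-(m : ℝ))) := by
  obtain ⟨Λ, h1, h2, h3⟩ := hm
  exact Pool.Agent.W353.NF.lim_order (L := LSeries V) h h1 h2 h3

end

section
variable {ι : Type} {a b : ι → ℤ}

/-- the data of the newforms -/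
theorem forms (hmod : ∀ i, IsModular (a i) (b i)) :
    ∃ (M : ι → ℕ) (_ : ∀ i, NeZero (M i)) (f : ∀ i, Pool.Agent.Y722.RS.S2 (M i)),
      (∀ i, Pool.Agent.TH941.Hecke (f i)) ∧
      ∀ i, ∀ p : ℕ, p.Prime → ¬ (p : ℤ) ∣ 2 * (4 * a i ^ 3 + 27 * b i ^ 2) →
        ¬ p ∣ M i ∧ Pool.Agent.W165.RS.ac (f i) p =
          (p : ℂ) + 1 - Pool.Agent.U607.AllE.points (ZMod p) (a i) (b i) := by
  choose M hM f hf using hmod
  refine ⟨M, hM, f, fun i => ?_, fun i p hp h => (hf i).trace p hp h⟩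
  exact ⟨(hf i).one, (hf i).real, (hf i).mul, (hf i).pow, (hf i).good, (hf i).bad⟩

theorem joint (hΔ : ∀ i, 4 * a i ^ 3 + 27 * b i ^ 2 ≠ 0) (hmod : ∀ i, IsModular (a i) (b i))
    (hne : ∀ i j, i ≠ j → NotIsogenous (a i) (b i) (a j) (b j)) : JointInequality a b := by
  obtain ⟨M, _, f, hf, hpt⟩ := forms hmod
  intro κ _ F _ _ D V hD hV S
  have h1 : ∀ C η : ℝ, 0 < η → ∀ᶠ ε : ℝ in 𝓝[>] 0, ∀ c : κ → ℝ, (∀ k, |c k| ≤ C) →
        ∑ s ∈ S, weight S s * (max (∑ k, c k * size (V s.1 k) s.2 ε) 0) ^ 2 ≤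
          ∑ k, ∑ l, c k * c l * pairing (D k : F k) (D l : F l) + η := fun C η hη =>
    core_w a b M f hf hpt hne hΔ F D hD S (fun s k => size (V s.1 k) s.2)
      (fun s _ k => (size_twist (hΔ s.1) (hD k) (hV s.1 k) s.2).2) C hη
  refine ⟨h1, fun m hm c => ?_⟩
  refine to_orders S (weight S) (fun s k => size (V s.1 k) s.2) m
    (fun c => ∑ k, ∑ l, c k * c l * pairing (D k : F k) (D l : F l)) h1
    (fun s hs k => orders (size_twist (hΔ s.1) (hD k) (hV s.1 k) s.2).1 (hm s hs k)) (fun c => ?_) c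
  simp only [Pi.neg_apply, neg_mul_neg]

theorem weight_one {S : Finset (ι × ℝ)} {s : ι × ℝ} : 1 ≤ weight S s := by
  unfold weight
  split_ifs <;> norm_num

/-- counting from the inequality -/
theorem count {T : Set (ι × ℝ)} {m : ι × ℝ → ℤ} {Q : ℕ}
    (h : ∀ S : Finset (ι × ℝ), (∀ x ∈ S, x ∈ T) →
      ∑ x ∈ S, weight S x * (max (m x : ℝ) 0) ^ 2 ≤ Q) :
    {x ∈ T | 0 < m x}.Finite ∧ {i | ∃ τ, (i, τ) ∈ T ∧ 0 < m (i, τ)}.ncard ≤ Q ∧
      2 * {i | ∃ τ, τ ≠ 0 ∧ (i, τ) ∈ T ∧ 0 < m (i, τ)}.ncard ≤ Q := by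
  have hone : ∀ x : ι × ℝ, 0 < m x → 1 ≤ (max (m x : ℝ) 0) ^ 2 := by
    intro x hx
    have h4 : (1 : ℝ) ≤ m x := by exact_mod_cast hx
    have h6 : (1 : ℝ) ≤ max (m x : ℝ) 0 := h4.trans (le_max_left _ _)
    nlinarith
  have key : ∀ S : Finset (ι × ℝ), (∀ x ∈ S, x ∈ T ∧ 0 < m x) → S.card ≤ Q := by
    intro S hS
    have h1 := h S fun x hx => (hS x hx).1
    have h2 : (S.card : ℝ) ≤ ∑ x ∈ S, weight S x * (max (m x : ℝ) 0) ^ 2 := by
      rw [Finset.card_eq_sum_ones, Nat.cast_sum]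
      refine Finset.sum_le_sum fun x hx => ?_
      have h5 := hone x (hS x hx).2
      have h6 : 1 ≤ weight S x := weight_one
      push_cast
      nlinarith
    exact_mod_cast h2.trans h1
  have hfin : {x ∈ T | 0 < m x}.Finite := by
    by_contra hinf
    obtain ⟨S, hS1, hS2⟩ := Set.Infinite.exists_subset_card_eq hinf (Q + 1)
    have h1 := key S fun x hx => hS1 hx
    omega
  have hfst : {i | ∃ τ, (i, τ) ∈ T ∧ 0 < m (i, τ)}.Finite := by
    refine (hfin.image Prod.fst).subset ?_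
    rintro i ⟨τ, h1, h2⟩
    exact ⟨(i, τ), ⟨h1, h2⟩, rfl⟩
  have hfst2 : {i | ∃ τ, τ ≠ 0 ∧ (i, τ) ∈ T ∧ 0 < m (i, τ)}.Finite :=
    hfst.subset fun i ⟨τ, _, h1, h2⟩ => ⟨τ, h1, h2⟩
  refine ⟨hfin, ?_, ?_⟩
  · rw [Set.ncard_eq_toFinset_card _ hfst]
    have hex : ∀ i : ι, ∃ τ : ℝ, i ∈ hfst.toFinset → (i, τ) ∈ T ∧ 0 < m (i, τ) := by
      intro i
      by_cases hi : i ∈ hfst.toFinset
      · rw [Set.Finite.mem_toFinset] at hi
        obtain ⟨τ, hτ⟩ := hi
        exact ⟨τ, fun _ => hτ⟩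
      · exact ⟨0, fun h => absurd h hi⟩
    choose τ hτ using hex
    have h1 := key (hfst.toFinset.image fun i => (i, τ i)) (by
      intro x hx
      obtain ⟨i, hi, rfl⟩ := Finset.mem_image.1 hx
      exact hτ i hi)
    rwa [Finset.card_image_of_injective _ fun i j hij => (Prod.ext_iff.1 hij).1] at h1
  · rw [Set.ncard_eq_toFinset_card _ hfst2]
    have hex : ∀ i : ι, ∃ τ : ℝ, i ∈ hfst2.toFinset → τ ≠ 0 ∧ (i, τ) ∈ T ∧ 0 < m (i, τ) := by
      intro i
      by_cases hi : i ∈ hfst2.toFinset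
      · rw [Set.Finite.mem_toFinset] at hi
        obtain ⟨τ, hτ⟩ := hi
        exact ⟨τ, fun _ => hτ⟩
      · exact ⟨0, fun h => absurd h hi⟩
    choose τ hτ using hex
    have hinj : Function.Injective fun i : ι => (i, τ i) := fun i j hij => (Prod.ext_iff.1 hij).1
    set S := hfst2.toFinset.image fun i => (i, τ i) with hS
    have h1 := h S (by
      intro x hx
      obtain ⟨i, hi, rfl⟩ := Finset.mem_image.1 hx
      exact (hτ i hi).2.1)
    have h2 : (2 * hfst2.toFinset.card : ℝ) ≤ ∑ x ∈ S, weight S x * (max (m x : ℝ) 0) ^ 2 := by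
      rw [hS, Finset.sum_image fun i _ j _ hij => hinj hij, ← hS]
      rw [Finset.card_eq_sum_ones, Nat.cast_sum, Finset.mul_sum]
      refine Finset.sum_le_sum fun i hi => ?_
      have h5 := hone (i, τ i) (hτ i hi).2.2
      have h6 : weight S (i, τ i) = 2 := by
        unfold weight
        rw [if_pos]
        refine ⟨(hτ i hi).1, fun h7 => ?_⟩
        rw [hS, Finset.mem_image] at h7
        obtain ⟨j, _, h8⟩ := h7
        have h9 : j = i := (Prod.ext_iff.1 h8).1
        subst h9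
        have h10 : τ j = -τ j := (Prod.ext_iff.1 h8).2
        exact (hτ j hi).1 (by linarith)
      rw [h6]
      push_cast
      linarith
    have h3 : (2 * hfst2.toFinset.card : ℝ) ≤ Q := h2.trans h1
    exact_mod_cast h3

theorem oneField (hΔ : ∀ i, 4 * a i ^ 3 + 27 * b i ^ 2 ≠ 0) (hmod : ∀ i, IsModular (a i) (b i))
    (hne : ∀ i j, i ≠ j → NotIsogenous (a i) (b i) (a j) (b j)) : OneField a b := by
  intro F _ _ D V hD hV
  refine ⟨inum_le (D : F) (D : F), fun T m hm => ?_⟩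
  have h := joint hΔ hmod hne Unit (fun _ => F) (fun _ => D) (fun i _ => V i) (fun _ => hD)
    (fun i _ => hV i)
  have hS : ∀ S : Finset (ι × ℝ), (∀ x ∈ S, x ∈ T) → ∀ c : ℝ,
      ∑ s ∈ S, weight S s * (max (c * m s) 0) ^ 2 ≤ c * c * pairing (D : F) (D : F) := by
    intro S hST c
    have h1 := (h S).2 (fun s _ => m s) (fun s hs _ => hm s (hST s hs)) (fun _ => c)
    simpa using h1
  obtain ⟨p1, p2, p3⟩ := count (T := T) (m := m) (Q := pairing (D : F) (D : F)) (fun S hST => by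
    have h1 := hS S hST 1
    simpa using h1)
  obtain ⟨q1, q2, q3⟩ := count (T := T) (m := fun x => -m x) (Q := pairing (D : F) (D : F))
    (fun S hST => by
      have h1 := hS S hST (-1)
      simpa using h1)
  simp only [Left.neg_pos_iff] at q1 q2 q3
  refine ⟨?_, q2, p2, q3, p3⟩
  refine (p1.union q1).subset ?_
  rintro x ⟨hx, h0⟩
  rcases lt_or_gt_of_ne h0 with h1 | h1
  · exact Or.inr ⟨hx, h1⟩
  · exact Or.inl ⟨hx, h1⟩

theorem weight_single {i : ι} {τ : ℝ} (h : τ ≠ 0) :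
    weight ({(i, τ)} : Finset (ι × ℝ)) (i, τ) = 2 := by
  unfold weight
  rw [if_pos]
  refine ⟨h, fun h1 => ?_⟩
  rw [Finset.mem_singleton] at h1
  have h2 : -τ = τ := (Prod.ext_iff.1 h1).2
  exact h (by linarith)

theorem overQ (hΔ : ∀ i, 4 * a i ^ 3 + 27 * b i ^ 2 ≠ 0) (hmod : ∀ i, IsModular (a i) (b i))
    (hne : ∀ i j, i ≠ j → NotIsogenous (a i) (b i) (a j) (b j)) : OverQ a b := by
  intro F _ _ V₀ V hV₀ hV
  obtain ⟨M, _, f, hf, hpt⟩ := forms hmod
  have hV₀' : ∀ i, MinimalModels ((curve (a i) (b i)).map (algebraMap ℚ ℚ)) (V₀ i) := by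
    intro i
    have e : (curve (a i) (b i)).map (algebraMap ℚ ℚ) = curve (a i) (b i) := by
      have e0 : (algebraMap ℚ ℚ) = RingHom.id ℚ := Subsingleton.elim _ _
      rw [e0, WeierstrassCurve.map_id]
    rw [e]
    exact hV₀ i
  have hr : 1 ≤ pairing (1 : F) (1 : F) := inum_pos'
  have hQ : (((pairing (1 : F) (1 : F) - 1 : ℕ) : ℕ) : ℝ) = (pairing (1 : F) (1 : F) : ℝ) - 1 := by
    rw [Nat.cast_sub hr, Nat.cast_one]
  -- the inequality
  have key : ∀ (S : Finset (ι × ℝ)) (C η : ℝ), 0 < η → ∀ᶠ ε : ℝ in 𝓝[>] 0, ∀ c d : ℝ,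
      |c| ≤ C → |d| ≤ C →
      ∑ s ∈ S, weight S s * (max (c * size (V₀ s.1) s.2 ε + d * size (V s.1) s.2 ε) 0) ^ 2 ≤
        c * c + 2 * (c * d) + d * d * (pairing (1 : F) (1 : F) : ℝ) + η := by
    intro S C η hη
    exact core_two a b M f hf hpt hne hΔ (G := ℚ) (F := F) (by
        convert Module.finrank_self ℚ) S
      (fun s => size (V₀ s.1) s.2) (fun s => size (V s.1) s.2)
      (fun s _ => (size_base (hΔ s.1) (hV₀' s.1) s.2).2)
      (fun s _ => (size_base (hΔ s.1) (hV s.1) s.2).2) C hη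
  refine ⟨fun S η hη => ?_, fun T m₀ m hm => ?_⟩
  · filter_upwards [key S 1 η hη] with ε h
    have h1 := h (-1) 1 (by norm_num) (by norm_num)
    have h2 := h 1 (-1) (by norm_num) (by norm_num)
    constructor
    · refine le_trans (le_of_eq ?_) (h1.trans (by linarith))
      refine Finset.sum_congr rfl fun s _ => ?_
      congr 3
      ring
    · refine le_trans (le_of_eq ?_) (h2.trans (by linarith))
      refine Finset.sum_congr rfl fun s _ => ?_
      congr 3
      ring
  · have hord : ∀ S : Finset (ι × ℝ), (∀ x ∈ S, x ∈ T) → ∀ c d : ℝ,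
        ∑ s ∈ S, weight S s * (max (c * m₀ s + d * m s) 0) ^ 2 ≤
          c * c + 2 * (c * d) + d * d * (pairing (1 : F) (1 : F) : ℝ) := by
      intro S hS c d
      have h := to_orders (κ := Bool) S (weight S) (fun s k => match k with
        | true => size (V₀ s.1) s.2
        | false => size (V s.1) s.2) (fun s k => match k with
        | true => m₀ s
        | false => m s)
        (fun c => c true * c true + 2 * (c true * c false) +
          c false * c false * (pairing (1 : F) (1 : F) : ℝ))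
        (fun C η hη => by
          filter_upwards [key S C η hη] with ε h c hc
          have h1 := h (c true) (c false) (hc true) (hc false)
          simp only [Fintype.sum_bool]
          exact h1) (fun s hs k => by
          cases k
          · exact orders (size_base (hΔ s.1) (hV s.1) s.2).1 (hm s (hS s hs)).2
          · exact orders (size_base (hΔ s.1) (hV₀' s.1) s.2).1 (hm s (hS s hs)).1) (fun c => by
          simp only [Pi.neg_apply, neg_mul_neg]) (fun k => match k with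
        | true => c
        | false => d)
      simp only [Fintype.sum_bool] at h
      exact h
    have hzero : ∀ x ∈ T, x.2 ≠ 0 → m₀ x = 0 := by
      intro x hx hτ
      obtain ⟨i, τ⟩ := x
      have hS : ∀ y ∈ ({(i, τ)} : Finset (ι × ℝ)), y ∈ T := by
        intro y hy
        rw [Finset.mem_singleton] at hy
        exact hy ▸ hx
      have h1 := hord _ hS 1 0
      have h2 := hord _ hS (-1) 0
      rw [Finset.sum_singleton, weight_single hτ] at h1 h2
      have e1 : (1 : ℝ) * m₀ (i, τ) + 0 * m (i, τ) = m₀ (i, τ) := by ring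
      have e2 : (-1 : ℝ) * m₀ (i, τ) + 0 * m (i, τ) = -m₀ (i, τ) := by ring
      rw [e1] at h1
      rw [e2] at h2
      rcases lt_trichotomy (m₀ (i, τ)) 0 with h3 | h3 | h3
      · exfalso
        have h4 : (1 : ℝ) ≤ -m₀ (i, τ) := by exact_mod_cast (by omega : (1 : ℤ) ≤ -m₀ (i, τ))
        have h5 : -(m₀ (i, τ) : ℝ) ≤ max (-(m₀ (i, τ) : ℝ)) 0 := le_max_left _ _
        nlinarith
      · exact h3
      · exfalso
        have h4 : (1 : ℝ) ≤ m₀ (i, τ) := by exact_mod_cast h3
        have h5 : (m₀ (i, τ) : ℝ) ≤ max (m₀ (i, τ) : ℝ) 0 := le_max_left _ _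
        nlinarith
    obtain ⟨p1, p2, p3⟩ := count (T := T) (m := fun x => m x - m₀ x)
      (Q := pairing (1 : F) (1 : F) - 1) (fun S hST => by
        have h1 := hord S hST (-1) 1
        rw [hQ]
        refine le_trans (le_of_eq ?_) (h1.trans (by linarith))
        refine Finset.sum_congr rfl fun s _ => ?_
        congr 3
        push_cast
        ring)
    obtain ⟨q1, q2, q3⟩ := count (T := T) (m := fun x => m₀ x - m x)
      (Q := pairing (1 : F) (1 : F) - 1) (fun S hST => by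
        have h1 := hord S hST 1 (-1)
        rw [hQ]
        refine le_trans (le_of_eq ?_) (h1.trans (by linarith))
        refine Finset.sum_congr rfl fun s _ => ?_
        congr 3
        push_cast
        ring)
    simp only [sub_pos] at p1 p2 p3 q1 q2 q3
    have e3 : {i | ∃ τ, τ ≠ 0 ∧ (i, τ) ∈ T ∧ m (i, τ) < m₀ (i, τ)} =
        {i | ∃ τ, τ ≠ 0 ∧ (i, τ) ∈ T ∧ m (i, τ) < 0} := by
      ext i
      constructor
      · rintro ⟨τ, h1, h2, h3⟩
        rw [hzero _ h2 h1] at h3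
        exact ⟨τ, h1, h2, h3⟩
      · rintro ⟨τ, h1, h2, h3⟩
        refine ⟨τ, h1, h2, ?_⟩
        rw [hzero _ h2 h1]
        exact h3
    have e4 : {i | ∃ τ, τ ≠ 0 ∧ (i, τ) ∈ T ∧ m₀ (i, τ) < m (i, τ)} =
        {i | ∃ τ, τ ≠ 0 ∧ (i, τ) ∈ T ∧ 0 < m (i, τ)} := by
      ext i
      constructor
      · rintro ⟨τ, h1, h2, h3⟩
        rw [hzero _ h2 h1] at h3
        exact ⟨τ, h1, h2, h3⟩
      · rintro ⟨τ, h1, h2, h3⟩
        refine ⟨τ, h1, h2, ?_⟩
        rw [hzero _ h2 h1]
        exact h3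
    rw [e3] at q3
    rw [e4] at p3
    refine ⟨hzero, ?_, by omega, by omega, by omega, by omega⟩
    refine (p1.union q1).subset ?_
    rintro x ⟨hx, h0⟩
    rcases lt_or_gt_of_ne h0 with h1 | h1
    · exact Or.inr ⟨hx, h1⟩
    · exact Or.inl ⟨hx, h1⟩

end

/-- Let `E_i : y² = x³ + a_i x + b_i`, `i ∈ ι`, be modular elliptic curves over `ℚ`, no two of them
isogenous.  Then the joint Bessel inequality, the theorem on one field and one twist, and the theorem
which compares a number field with `ℚ` hold for these curves. -/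
theorem result (ι : Type) (a b : ι → ℤ) (hΔ : ∀ i, 4 * a i ^ 3 + 27 * b i ^ 2 ≠ 0)
    (hmod : ∀ i, IsModular (a i) (b i))
    (hne : ∀ i j, i ≠ j → NotIsogenous (a i) (b i) (a j) (b j)) :
    JointInequality a b ∧ OneField a b ∧ OverQ a b :=
  ⟨joint hΔ hmod hne, oneField hΔ hmod hne, overQ hΔ hmod hne⟩

end Pool.Agent.Results.MP_7ed9c3_nt.AllCurvesOverQ
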