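import Pool.Agent.U143.SH.Ord
import Pool.Agent.U143.SH.Entire

/-!
# Potentially modular elliptic curves: holomorphy at the zeros of order at most two

Let `E` be an elliptic curve over a number field `K` and `F/K` a finite Galois extension with group `G`.
For totally real and for CM fields `K` there is an `F` over which `E` is modular (Taylor; Allen, Calegari,
Caraiani, Gee, Helm, Le Hung, Newton, Scholze, Taylor, Thorne); by solvable descent (Langlands,
Arthur–Clozel) the L-functions `L(E/F^U ⊗ ψ, s)` are then entire for all SOLVABLE subgroups `U` of `G` and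
all linear characters `ψ` of `U`. Brauer's theorem gives the meromorphic continuation of `L(E/K, s)` and of
all Artin twists `L(E ⊗ χ, s)`, but `G` is not solvable in general and poles are not excluded. By the
argument of Heilbronn, Stark, Foote and Murty there is no pole at the zeros of order at most one of
`L(E/F, s)`.

Here the zeros of order two are treated, for every Galois group `G`: at a point where `L(E/F, s)` has a zero
of order at most two, the functions `L(E/K' ⊗ ψ, s)` are holomorphic for ALL intermediate fields `K'` (not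
only those over which `F` is solvable) and all linear characters `ψ` of `Gal(F/K')`, in particular
`L(E/K, s)` is; their quotients for `K' ⊂ K''` are holomorphic too (the analogue of Dedekind's conjecture);
and if the L-function of a linear character of `G`, for instance `L(E/K, s)`, has a zero there, then all the
`L(E ⊗ χ, s)` are holomorphic there. So if all zeros of `L(E/F, s)` in the critical strip
`1/2 ≤ Re s ≤ 3/2` have order at most two, then `E` satisfies Q1 over all intermediate fields.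

For Artin L-functions the holomorphy for linear characters of arbitrary subgroups is known from class field
theory, and the theory of Heilbronn characters of degree two (library `H302R2`) uses it. The new point is the
theorem `Pool.Agent.U143.SH.isHeilbronn_of_sol`: a class function `θ` on a finite group with `θ(1) ≤ 2` which
has nonnegative integral multiplicities at the linear characters of all solvable subgroups has them at the
linear characters of ALL subgroups. Proof: let `m = ⟨θ, 1⟩ < 0`, `θ(1) = 2`; then `m = -1`. The determinant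
`δ` of `θ` is a linear character; for `δ = 1` the number `m` is even (Solomon's induction theorem). For
`δ ≠ 1` also `⟨θ, δ⟩ = -1`, because of `conj θ = θ δ⁻¹`, and the sum of the `⟨θ, δ^j⟩` is the multiplicity of
`1` on the kernel of `δ`, which is nonnegative by the first case; so `∑ ⟨θ, δ^j⟩² ≥ 4`, and by Bessel's
inequality `θ` is a combination of the `δ^j` which vanishes at `1`, a contradiction.
-/

set_option autoImplicit false
open NumberField
open Classical

namespace Pool.Agent.Results.MP_7ed9c3_nt.DoubleZeros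

open IsDedekindDomain
open Pool.Agent.H541R3.ART (Irr)
open Pool.Agent.R389 (ind IsDecomp)

/-- `M v` is, for every `v`, an integral model of `E` with discriminant minimal at `v`. -/
def MinimalModels {K : Type} [Field K] [NumberField K] (E : WeierstrassCurve K)
    (M : HeightOneSpectrum (𝓞 K) → WeierstrassCurve (𝓞 K)) : Prop :=
  ∀ v : HeightOneSpectrum (𝓞 K),
    (∃ C : WeierstrassCurve.VariableChange K, C • E = (M v).map (algebraMap (𝓞 K) K)) ∧
    ∀ W : WeierstrassCurve (𝓞 K),
      (∃ C : WeierstrassCurve.VariableChange K, C • E = W.map (algebraMap (𝓞 K) K)) →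
        ∀ n : ℕ, (M v).Δ ∈ v.asIdeal ^ n → W.Δ ∈ v.asIdeal ^ n

/-- The Euler product of the problem, computed from the reductions of the models `M v`. -/
noncomputable def LSeries {K : Type} [Field K] [NumberField K]
    (M : HeightOneSpectrum (𝓞 K) → WeierstrassCurve (𝓞 K)) (s : ℂ) : ℂ :=
  ∏' v : HeightOneSpectrum (𝓞 K),
    (1 - ((((Ideal.absNorm v.asIdeal : ℕ) : ℤ) -
          ((Nat.card {p : (𝓞 K ⧸ v.asIdeal) × (𝓞 K ⧸ v.asIdeal) //
            p.2 ^ 2 + Ideal.Quotient.mk v.asIdeal (M v).a₁ * p.1 * p.2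
              + Ideal.Quotient.mk v.asIdeal (M v).a₃ * p.2
            = p.1 ^ 3 + Ideal.Quotient.mk v.asIdeal (M v).a₂ * p.1 ^ 2
              + Ideal.Quotient.mk v.asIdeal (M v).a₄ * p.1
              + Ideal.Quotient.mk v.asIdeal (M v).a₆} : ℕ) : ℤ) : ℤ) : ℂ)
          * ((Ideal.absNorm v.asIdeal : ℕ) : ℂ) ^ (-s)
      + (if (M v).Δ ∈ v.asIdeal then (0 : ℂ) else 1)
          * ((Ideal.absNorm v.asIdeal : ℕ) : ℂ) ^ (1 - 2 * s))⁻¹

/-- The formal properties of the L-functions `L(E ⊗ χ, s)`, `χ` an irreducible complex character of the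
Galois group `G` of `F/K`: they are analytic for `Re s > 3/2`, have a meromorphic continuation to the plane
and do not vanish identically, have no poles for `Re s < 1/2` (by the functional equation, because of
`L(E ⊗ χ, s) ≠ 0` for `Re s > 3/2`), and for every subgroup `U` of `G` the product of the
`L(E ⊗ χ, s) ^ ⟨χ|_U, 1⟩` is, for `Re s > 3/2`, the Euler product of the problem for `E` over the fixed
field of `U`. -/
structure TwistFamily (K : Type) [Field K] [NumberField K] (E : WeierstrassCurve K)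
    (F : Type) [Field F] [NumberField F] [Algebra K F] where
  /-- the function `L(E ⊗ χ, s)` -/
  L : ((F ≃ₐ[K] F) → ℂ) → ℂ → ℂ
  analytic : ∀ χ ∈ Irr (F ≃ₐ[K] F), ∀ s : ℂ, (3 / 2 : ℝ) < s.re → AnalyticAt ℂ (L χ) s
  mero : ∀ χ ∈ Irr (F ≃ₐ[K] F), ∀ s : ℂ, MeromorphicAt (L χ) s ∧ meromorphicOrderAt (L χ) s ≠ ⊤
  left : ∀ χ ∈ Irr (F ≃ₐ[K] F), ∀ s : ℂ, s.re < (1 / 2 : ℝ) → 0 ≤ meromorphicOrderAt (L χ) s
  euler : ∀ (U : Subgroup (F ≃ₐ[K] F)) (m : ((F ≃ₐ[K] F) → ℂ) → ℕ),
    IsDecomp (ind U (fun _ => 1)) m →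
    ∀ M : HeightOneSpectrum (𝓞 (IntermediateField.fixedField U)) →
        WeierstrassCurve (𝓞 (IntermediateField.fixedField U)),
      MinimalModels (E.map (algebraMap K (IntermediateField.fixedField U))) M →
        ∀ s : ℂ, (3 / 2 : ℝ) < s.re → ∏ᶠ χ ∈ Irr (F ≃ₐ[K] F), L χ s ^ m χ = LSeries M s

/-- The order at `s` of the L-function of the twist of `E` by the character which contains `χ` with the
multiplicity `m χ`, the product of the `L(E ⊗ χ, s) ^ m χ`. For the multiplicities of the character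
induced from a linear character `ψ` of a subgroup `U` this is the order at `s` of `L(E/F^U ⊗ ψ, s)`. -/
noncomputable def TwistFamily.order {K : Type} [Field K] [NumberField K] {E : WeierstrassCurve K}
    {F : Type} [Field F] [NumberField F] [Algebra K F] (T : TwistFamily K E F)
    (m : ((F ≃ₐ[K] F) → ℂ) → ℕ) (s : ℂ) : WithTop ℤ :=
  meromorphicOrderAt (fun z => ∏ᶠ χ ∈ Irr (F ≃ₐ[K] F), T.L χ z ^ m χ) s

end Pool.Agent.Results.MP_7ed9c3_nt.DoubleZeros

open IsDedekindDomain
open Pool.Agent.H541R3.ART (Irr)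
open Pool.Agent.R389 (ind IsDecomp)
open Pool.Agent.Results.MP_7ed9c3_nt.DoubleZeros

theorem Pool.Agent.Results.MP_7ed9c3_nt.DoubleZeros.order_prod_nonneg {ι : Type*} (S : Finset ι)
    (f : ι → ℂ → ℂ) (m : ι → ℕ) (s : ℂ) (hf : ∀ i ∈ S, MeromorphicAt (f i) s)
    (h : ∀ i ∈ S, 0 ≤ meromorphicOrderAt (f i) s) :
    0 ≤ meromorphicOrderAt (fun z => ∏ i ∈ S, f i z ^ m i) s := by
  induction S using Finset.induction_on with
  | empty =>
    simp only [Finset.prod_empty]
    exact (analyticAt_const (v := (1 : ℂ))).meromorphicOrderAt_nonneg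
  | insert a S ha ih =>
    have h1 : (fun z => ∏ i ∈ insert a S, f i z ^ m i)
        = (f a ^ m a) * fun z => ∏ i ∈ S, f i z ^ m i := by
      funext z
      rw [Finset.prod_insert ha]
      rfl
    have h2 : MeromorphicAt (fun z => ∏ i ∈ S, f i z ^ m i) s :=
      MeromorphicAt.fun_prod fun i hi => (hf i (Finset.mem_insert_of_mem hi)).fun_pow _
    have h3 := hf a (Finset.mem_insert_self a S)
    have h4 : ∀ n : ℕ, 0 ≤ meromorphicOrderAt (f a ^ n) s := by
      intro n
      induction n with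
      | zero =>
        rw [pow_zero]
        exact (analyticAt_const (v := (1 : ℂ))).meromorphicOrderAt_nonneg
      | succ n ihn =>
        rw [pow_succ, meromorphicOrderAt_mul (h3.pow _) h3]
        exact add_nonneg ihn (h a (Finset.mem_insert_self a S))
    rw [h1, meromorphicOrderAt_mul (h3.pow _) h2]
    exact add_nonneg (h4 _)
      (ih (fun i hi => hf i (Finset.mem_insert_of_mem hi))
        fun i hi => h i (Finset.mem_insert_of_mem hi))

/-- **Potentially modular elliptic curves at the zeros of order at most two.** Let `F/K` be a finite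
Galois extension of number fields with group `G`, `E` an elliptic curve over `K`, and `T` a family of
functions with the formal properties of the L-functions `L(E ⊗ χ, s)`. Suppose that `L(E/F^U ⊗ ψ, s)` has
no pole for all solvable subgroups `U` of `G` and all linear characters `ψ` of `U`.

(a) At every point `s₀` where `L(E/F, s)`, the product of the `L(E ⊗ χ, s) ^ χ(1)`, has order at most `2`:
* `L(E/F^U ⊗ ψ, s)` has no pole at `s₀`, for all subgroups `U` of `G` and linear characters `ψ` of `U`;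
* its order at `s₀` is at most the order of `L(E/F^V ⊗ ψ|_V, s)` for all `V ≤ U`;
* if `L(E ⊗ ρ, s)` has a zero at `s₀` for some linear character `ρ` of `G` (for instance if `L(E/K, s)`
  has a zero at `s₀`), then `L(E ⊗ χ, s)` has no pole at `s₀` for all irreducible characters `χ` of `G`.

(b) If all zeros of `L(E/F, s)` in the strip `1/2 ≤ Re s ≤ 3/2` have order at most `2`, then for every
subgroup `U` of `G` there is an entire function which agrees for `Re s > 3/2` with the L-series of `E` over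
the fixed field of `U`: the statement of Q1 holds for `E` over all fields between `K` and `F`. -/
theorem Pool.Agent.Results.MP_7ed9c3_nt.DoubleZeros.result
    (K : Type) [Field K] [NumberField K] (E : WeierstrassCurve K) (_hE : E.IsElliptic)
    (F : Type) [Field F] [NumberField F] [Algebra K F] [IsGalois K F] (T : TwistFamily K E F)
    (hsol : ∀ U : Subgroup (F ≃ₐ[K] F), Group.IsSolvable U → ∀ (ψ : U →* ℂˣ)
      (m : ((F ≃ₐ[K] F) → ℂ) → ℕ), IsDecomp (ind U (fun x => ((ψ x : ℂˣ) : ℂ))) m →
        ∀ s : ℂ, 0 ≤ T.order m s)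
    (deg : ((F ≃ₐ[K] F) → ℂ) → ℕ) (hdeg : ∀ χ ∈ Irr (F ≃ₐ[K] F), χ 1 = deg χ) :
    (∀ s₀ : ℂ, T.order deg s₀ ≤ 2 →
      (∀ (U : Subgroup (F ≃ₐ[K] F)) (ψ : U →* ℂˣ) (m : ((F ≃ₐ[K] F) → ℂ) → ℕ),
        IsDecomp (ind U (fun x => ((ψ x : ℂˣ) : ℂ))) m → 0 ≤ T.order m s₀) ∧
      (∀ (V U : Subgroup (F ≃ₐ[K] F)) (h : V ≤ U) (ψ : U →* ℂˣ) (m m' : ((F ≃ₐ[K] F) → ℂ) → ℕ),
        IsDecomp (ind U (fun x => ((ψ x : ℂˣ) : ℂ))) m →
        IsDecomp (ind V (fun x => ((ψ (Subgroup.inclusion h x) : ℂˣ) : ℂ))) m' →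
          T.order m s₀ ≤ T.order m' s₀) ∧
      ∀ ρ : (F ≃ₐ[K] F) →* ℂˣ, meromorphicOrderAt (T.L (fun g => ((ρ g : ℂˣ) : ℂ))) s₀ ≠ 0 →
        ∀ χ ∈ Irr (F ≃ₐ[K] F), 0 ≤ meromorphicOrderAt (T.L χ) s₀) ∧
    ((∀ s₀ : ℂ, (1 / 2 : ℝ) ≤ s₀.re → s₀.re ≤ (3 / 2 : ℝ) → T.order deg s₀ ≤ 2) →
      ∀ U : Subgroup (F ≃ₐ[K] F), ∃ Λ : ℂ → ℂ,
      Differentiable ℂ Λ ∧ ∀ M : HeightOneSpectrum (𝓞 (IntermediateField.fixedField U)) →
          WeierstrassCurve (𝓞 (IntermediateField.fixedField U)),
        MinimalModels (E.map (algebraMap K (IntermediateField.fixedField U))) M →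
          ∀ s : ℂ, (3 / 2 : ℝ) < s.re → Λ s = LSeries M s) := by
  have hG : Finite (F ≃ₐ[K] F) := inferInstance
  have hA : ∀ s₀ : ℂ, T.order deg s₀ ≤ 2 → _ := fun s₀ hz =>
    Pool.Agent.U143.SH.heil (c := s₀) (fun χ hχ => T.mero χ hχ s₀)
      (fun U hU ψ m hm => hsol U hU ψ m hm s₀) hdeg hz
  refine ⟨fun s₀ hz => ⟨fun U ψ m hm => ?_, fun V U h ψ m m' hm hm' => ?_, fun ρ hρ χ hχ => ?_⟩,
    fun hall U => ?_⟩
  · exact Pool.Agent.U143.SH.order_nonneg (fun χ hχ => T.mero χ hχ s₀) (hA s₀ hz).1 U ψ hm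
  · exact Pool.Agent.U143.SH.order_mono (fun χ hχ => T.mero χ hχ s₀) (hA s₀ hz).1 (hA s₀ hz).2 h ψ
      hm hm'
  · exact Pool.Agent.U143.SH.all_nonneg (fun χ hχ => T.mero χ hχ s₀) (hA s₀ hz).1 (hA s₀ hz).2 ρ hρ
      hχ
  · obtain ⟨m, hm⟩ := Pool.Agent.R389.ind_isDecomp U (1 : U →* ℂˣ)
    have hm1 : IsDecomp (ind U (fun _ => (1 : ℂ))) m := by
      have h1 : (fun h : U => (((1 : U →* ℂˣ) h : ℂˣ) : ℂ)) = fun _ => 1 := by
        funext h
        simp
      rw [h1] at hm
      exact hm
    have hform : (fun z => ∏ᶠ χ ∈ Irr (F ≃ₐ[K] F), T.L χ z ^ m χ)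
        = fun z => ∏ χ ∈ Pool.Agent.H541R3.ART.irrF (F ≃ₐ[K] F), T.L χ z ^ m χ := by
      funext z
      exact Pool.Agent.R389.finprod_irr (fun χ => T.L χ z ^ m χ)
    have hprod : ∀ s : ℂ, (∀ χ ∈ Irr (F ≃ₐ[K] F), 0 ≤ meromorphicOrderAt (T.L χ) s) →
        0 ≤ meromorphicOrderAt (fun z => ∏ᶠ χ ∈ Irr (F ≃ₐ[K] F), T.L χ z ^ m χ) s := by
      intro s hs
      rw [hform]
      exact order_prod_nonneg _ _ _ s (fun χ hχ =>
        (T.mero χ (Pool.Agent.H541R3.ART.mem_irrF.mp hχ) s).1) fun χ hχ =>
          hs χ (Pool.Agent.H541R3.ART.mem_irrF.mp hχ)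
    obtain ⟨Λ, hΛ, hΛ'⟩ := Pool.Agent.U143.SH.entire_of
      (f := fun z => ∏ᶠ χ ∈ Irr (F ≃ₐ[K] F), T.L χ z ^ m χ)
      (fun s => by
        rw [hform]
        exact MeromorphicAt.fun_prod fun χ hχ =>
          ((T.mero χ (Pool.Agent.H541R3.ART.mem_irrF.mp hχ) s).1).fun_pow _)
      (fun s => by
        rcases lt_or_ge s.re (1 / 2 : ℝ) with h1 | h1
        · exact hprod s fun χ hχ => T.left χ hχ s h1
        · rcases le_or_gt s.re (3 / 2 : ℝ) with h2 | h2
          · exact Pool.Agent.U143.SH.order_nonneg (fun χ hχ => T.mero χ hχ s)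
              (hA s (hall s h1 h2)).1 U 1 hm
          · exact hprod s fun χ hχ => (T.analytic χ hχ s h2).meromorphicOrderAt_nonneg)
    refine ⟨Λ, hΛ, fun M hM s hs => ?_⟩
    rw [← T.euler U m hm1 M hM s hs]
    refine hΛ' s ?_
    rw [hform]
    exact Finset.analyticAt_fun_prod _ fun χ hχ =>
      (T.analytic χ (Pool.Agent.H541R3.ART.mem_irrF.mp hχ) s hs).fun_pow _
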