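import Pool.Agent.U823.UA.Wt
import Pool.Agent.U823.UA.Uniq

/-!
# Universal almost periods of the L-functions of elliptic curves on the edge of absolute convergence

Nothing is assumed about the continuation of `L(E/K, s)`.
-/

set_option autoImplicit false

namespace Pool.Agent.Results.MP_7ed9c3_nt.UniversalAlmostPeriods

open NumberField IsDedekindDomain MeasureTheory Filter Topology

/-- `W v` is, for every finite place `v`, an integral model of `E` with discriminant minimal at
`v`. -/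
def MinimalModels {K : Type} [Field K] [NumberField K] (E : WeierstrassCurve K)
    (W : HeightOneSpectrum (𝓞 K) → WeierstrassCurve (𝓞 K)) : Prop :=
  ∀ v : HeightOneSpectrum (𝓞 K),
    (∃ C : WeierstrassCurve.VariableChange K, C • (W v).map (algebraMap (𝓞 K) K) = E) ∧
    ∀ W' : WeierstrassCurve (𝓞 K),
      (∃ C : WeierstrassCurve.VariableChange K, C • W'.map (algebraMap (𝓞 K) K) = E) →
      ∀ n : ℕ, (W v).Δ ∈ v.asIdeal ^ n → W'.Δ ∈ v.asIdeal ^ n

open Classical in
/-- The Euler factor at `v`, `(1 - a_v Nv^{-s} + Nv^{1-2s})⁻¹` if the reduction at `v` is good and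
`(1 - a_v Nv^{-s})⁻¹` if it is bad, where `a_v` is `Nv` minus the number of affine points of the
reduction of `W v` (for bad reduction this is `1`, `-1`, `0` in the split multiplicative, non-split
multiplicative, additive case). -/
noncomputable def localFactor {K : Type} [Field K] [NumberField K]
    (W : HeightOneSpectrum (𝓞 K) → WeierstrassCurve (𝓞 K)) (v : HeightOneSpectrum (𝓞 K))
    (s : ℂ) : ℂ :=
  (1 - ((Ideal.absNorm v.asIdeal : ℂ)
        - (Nat.card {xy : (𝓞 K ⧸ v.asIdeal) × (𝓞 K ⧸ v.asIdeal) //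
            ((W v).map (Ideal.Quotient.mk v.asIdeal)).toAffine.Equation xy.1 xy.2} : ℂ))
        * (Ideal.absNorm v.asIdeal : ℂ) ^ (-s)
    + (if (W v).Δ ∈ v.asIdeal then 0 else (Ideal.absNorm v.asIdeal : ℂ))
        * (Ideal.absNorm v.asIdeal : ℂ) ^ (-2 * s))⁻¹

/-- The `L`-function, as the Euler product over all finite places. -/
noncomputable def LSeries {K : Type} [Field K] [NumberField K]
    (W : HeightOneSpectrum (𝓞 K) → WeierstrassCurve (𝓞 K)) (s : ℂ) : ℂ :=
  ∏' v : HeightOneSpectrum (𝓞 K), localFactor W v s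

/-- The point `3/2 + iτ` of the edge. -/
noncomputable def edge (τ : ℝ) : ℂ := 3 / 2 + τ * Complex.I

/-- The angle `|s - (3/2 + iτ)| ≤ C (Re s - 3/2)` in the half-plane `Re s > 3/2`. -/
def angle (τ C : ℝ) : Set ℂ :=
  {s : ℂ | 3 / 2 < s.re ∧ ‖s - edge τ‖ ≤ C * (s.re - 3 / 2)}

/-- `l` is a boundary function of `L(E/K, s)`: outside a set of real numbers `τ` of Hausdorff
dimension `0`, the L-function tends to `l τ` as `s` tends to `3/2 + iτ` in any angle. -/
def IsBoundary {K : Type} [Field K] [NumberField K]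
    (W : HeightOneSpectrum (𝓞 K) → WeierstrassCurve (𝓞 K)) (l : ℝ → ℂ) : Prop :=
  ∃ N : Set ℝ, dimH N = 0 ∧ ∀ τ : ℝ, τ ∉ N → ∀ C : ℝ,
    Tendsto (LSeries W) (𝓝[angle τ C] (edge τ)) (𝓝 (l τ))

/-- the boundary function is, up to a null set, the exponential of the boundary series -/
lemma structure_thm {K : Type} [Field K] [NumberField K]
    (W : HeightOneSpectrum (𝓞 K) → WeierstrassCurve (𝓞 K)) :
    ∃ b : Pool.Agent.TH339.MP.PP → ℂ,
      (∀ x, ‖b x‖ ≤ ((Module.finrank ℚ K : ℝ) * 2) / (x.2 + 1 : ℕ)) ∧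
      IsBoundary W (Pool.Agent.TH345.ET.bv b (Pool.Agent.TH345.ET.hE W)) ∧
      ∀ l, IsBoundary W l →
        l =ᵐ[volume] Pool.Agent.TH345.ET.bv b (Pool.Agent.TH345.ET.hE W) := by
  have hlf : ∀ v s, localFactor W v s = Pool.Agent.TH339.MP.elf W v s := by
    intro v s
    have h1 : (Nat.card {xy : (𝓞 K ⧸ v.asIdeal) × (𝓞 K ⧸ v.asIdeal) //
            ((W v).map (Ideal.Quotient.mk v.asIdeal)).toAffine.Equation xy.1 xy.2}) =
        Pool.Agent.TH339.MP.affc ((W v).map (Ideal.Quotient.mk v.asIdeal)) := by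
      unfold Pool.Agent.TH339.MP.affc
      refine Nat.card_congr (Equiv.subtypeEquivRight fun q => ?_)
      exact WeierstrassCurve.Affine.equation_iff ..
    unfold localFactor Pool.Agent.TH339.MP.elf Pool.Agent.TH339.MP.lfac Pool.Agent.TH339.MP.av
      Pool.Agent.TH339.MP.nm
    rw [h1]
    push_cast
    rfl
  have hL : ∀ s, LSeries W s = ∏' v, Pool.Agent.TH339.MP.elf W v s :=
    fun s => tprod_congr fun v => hlf v s
  obtain ⟨b, hb, hprod⟩ := Pool.Agent.TH345.ET.elf_hasProd' W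
  have hLb : ∀ s : ℂ, 3 / 2 < s.re → LSeries W s =
      Pool.Agent.TH345.ET.hE W (s - 1 / 2) *
        Complex.exp (Pool.Agent.TH339.MP.FF b (s - 1 / 2)) := by
    intro s hs
    have h1 : 1 < (s - 1 / 2).re := by
      have : (s - 1 / 2).re = s.re - 1 / 2 := by simp
      rw [this]
      linarith
    have h2 := hprod _ h1
    rw [sub_add_cancel] at h2
    rw [hL, h2.tprod_eq]
  have hsub : ∀ τ : ℝ, edge τ - 1 / 2 = Pool.Agent.TH345.ET.ep τ := by
    intro τ
    unfold edge Pool.Agent.TH345.ET.ep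
    ring
  have hdim := (Pool.Agent.TH339.MP.boundary hb).2.1
  have hB : IsBoundary W (Pool.Agent.TH345.ET.bv b (Pool.Agent.TH345.ET.hE W)) := by
    refine ⟨_, hdim, fun τ hτ C => ?_⟩
    have h5 := (Complex.continuous_exp.tendsto _).comp (Pool.Agent.TH339.MP.bl_angle hb hτ C)
    have h6 : Tendsto (fun s : ℂ => s - edge τ) (𝓝[angle τ C] (edge τ))
        (𝓝[{z : ℂ | 0 < z.re ∧ ‖z‖ ≤ C * z.re}] 0) := by
      rw [tendsto_nhdsWithin_iff]
      constructor
      · have h7 : Tendsto (fun s : ℂ => s - edge τ) (𝓝 (edge τ)) (𝓝 (edge τ - edge τ)) :=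
          (continuous_id.sub continuous_const).tendsto _
        rw [sub_self] at h7
        exact h7.mono_left nhdsWithin_le_nhds
      · filter_upwards [self_mem_nhdsWithin] with s hs
        have hre : (s - edge τ).re = s.re - 3 / 2 := by
          unfold edge
          simp
        refine ⟨?_, ?_⟩
        · rw [hre]
          linarith [hs.1]
        · rw [hre]
          exact hs.2
    have h7 : Tendsto (fun s : ℂ => Pool.Agent.TH345.ET.hE W (s - 1 / 2)) (𝓝[angle τ C] (edge τ))
        (𝓝 (Pool.Agent.TH345.ET.hE W (Pool.Agent.TH345.ET.ep τ))) := by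
      have h8 : Tendsto (fun s : ℂ => s - 1 / 2) (𝓝 (edge τ)) (𝓝 (edge τ - 1 / 2)) :=
        (continuous_id.sub continuous_const).tendsto _
      rw [hsub] at h8
      exact (((Pool.Agent.TH345.ET.hE_analytic W τ).continuousAt.tendsto).comp h8).mono_left
        nhdsWithin_le_nhds
    refine (h7.mul (h5.comp h6)).congr' ?_
    filter_upwards [self_mem_nhdsWithin] with s hs
    rw [hLb s hs.1]
    simp only [Function.comp_apply]
    congr 3
    unfold edge
    ring
  refine ⟨b, hb, hB, fun l hl => ?_⟩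
  obtain ⟨N, hN, h1⟩ := hl
  obtain ⟨N', hN', h2⟩ := hB
  refine Pool.Agent.U823.UA.ae_eq_of_boundary (e := edge) (A := angle) ?_ hN hN' h1 h2
  intro τ
  have hre : (edge τ).re = 3 / 2 := by
    unfold edge
    simp
  unfold angle
  rw [hre]

/-- **Universal almost periods, and means over all intervals.**  For every `d` there is a function
`Λ` such that:

* for `η > 0`, every real interval of length `Λ η` contains a `τ` which is an almost period, with
  error `η`, of `log |L|` on the edge, in the mean over all unit intervals `[t, t + 1]`, for all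
  elliptic curves `E` over all number fields `K` of degree at most `d` at the same time;
* for every such `E`, there is a boundary function, and for every boundary function `l` and every
  function `F` of Lipschitz constant `1` there is a `μ` such that the mean of `F (log |l|)` over any
  interval of length at least `Λ η` is within `η` of `μ`;
* the same with `|l| ^ r` instead of `F (log |l|)`, if `8 d |r| ≤ 1`. -/
theorem result (d : ℕ) : ∃ Λ : ℝ → ℝ,
    (∀ η : ℝ, 0 < η → 0 < Λ η ∧ ∀ a : ℝ, ∃ τ ∈ Set.Icc a (a + Λ η),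
      ∀ (K : Type) [Field K] [NumberField K] (E : WeierstrassCurve K) [E.IsElliptic]
        (W : HeightOneSpectrum (𝓞 K) → WeierstrassCurve (𝓞 K)) (l : ℝ → ℂ),
        Module.finrank ℚ K ≤ d → MinimalModels E W → IsBoundary W l → ∀ t : ℝ,
        ∫⁻ u in Set.Icc t (t + 1),
          ENNReal.ofReal ((Real.log ‖l (u + τ)‖ - Real.log ‖l u‖) ^ 2) ≤ ENNReal.ofReal η) ∧
    ∀ (K : Type) [Field K] [NumberField K] (E : WeierstrassCurve K) [E.IsElliptic]
      (W : HeightOneSpectrum (𝓞 K) → WeierstrassCurve (𝓞 K)),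
      Module.finrank ℚ K ≤ d → MinimalModels E W →
      (∃ l, IsBoundary W l) ∧ ∀ l, IsBoundary W l →
        (∀ F : ℝ → ℝ, (∀ x y, |F x - F y| ≤ |x - y|) → ∃ μ : ℝ, ∀ η, 0 < η → ∀ t H : ℝ,
          Λ η ≤ H → |H⁻¹ * (∫ u in t..(t + H), F (Real.log ‖l u‖)) - μ| ≤ η) ∧
        (∀ r : ℝ, 8 * d * |r| ≤ 1 → ∃ μ : ℝ, ∀ η, 0 < η → ∀ t H : ℝ,
          Λ η ≤ H → |H⁻¹ * (∫ u in t..(t + H), ‖l u‖ ^ r) - μ| ≤ η) := by
  classical
  choose! Λ₀ hΛ₀ hΛ using fun (η : ℝ) (hη : 0 < η) => Pool.Agent.U823.UA.common d hη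
  set Λ₁ : ℝ → ℝ := fun ε => Λ₀ (ε ^ 2 / 1152000) with hΛ₁
  have hΛ₁0 : ∀ ε : ℝ, 0 < ε → 0 ≤ Λ₁ ε := fun ε hε => (hΛ₀ _ (by positivity)).le
  set Λ : ℝ → ℝ := fun η =>
    max (Λ₀ η) (max 1 (16 * ((2304000 * (d + 1)) * (Λ₁ (η / 16) + 1)) / η)) with hΛdef
  have hΛp : ∀ η, 0 < η → 0 < Λ η := fun η hη => (hΛ₀ η hη).trans_le (le_max_left _ _)
  have hΛ1 : ∀ η, 1 ≤ Λ η := fun η => (le_max_left _ _).trans (le_max_right _ _)
  have hΛ2 : ∀ η, 0 < η → ∀ H, Λ η ≤ H →
      16 * ((2304000 * ((d : ℝ) + 1)) * (Λ₁ (η / 16) + 1)) ≤ η * H := by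
    intro η hη H hH
    have h1 : 16 * ((2304000 * ((d : ℝ) + 1)) * (Λ₁ (η / 16) + 1)) / η ≤ H :=
      ((le_max_right _ _).trans (le_max_right _ _)).trans hH
    rw [div_le_iff₀ hη] at h1
    linarith
  refine ⟨Λ, fun η hη => ⟨hΛp η hη, fun a => ?_⟩, ?_⟩
  · obtain ⟨τ, hτ, h⟩ := hΛ η hη a
    have hle : Λ₀ η ≤ Λ η := le_max_left _ _
    have hτ2 : τ ≤ a + Λ η := by linarith [hτ.2]
    refine ⟨τ, ⟨hτ.1, hτ2⟩, ?_⟩
    intro K _ _ E _ W l hd _ hl t
    obtain ⟨b, hb, -, huniq⟩ := structure_thm W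
    have h1 := huniq l hl
    refine le_trans (le_of_eq ?_) (h K W b hd hb t)
    refine lintegral_congr_ae (ae_restrict_of_ae ?_)
    have h2 : ∀ᵐ u : ℝ, l (u + τ) = Pool.Agent.TH345.ET.bv b (Pool.Agent.TH345.ET.hE W) (u + τ) :=
      (measurePreserving_add_right volume τ).quasiMeasurePreserving.ae h1
    filter_upwards [h1, h2] with u h3 h4
    rw [h3, h4]
    rfl
  · intro K _ _ E _ W hd _
    obtain ⟨b, hb, hB, huniq⟩ := structure_thm W
    refine ⟨⟨_, hB⟩, fun l hl => ?_⟩
    have h1 := huniq l hl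
    have hdr : (Module.finrank ℚ K : ℝ) ≤ d := by exact_mod_cast hd
    have hd1 : (1 : ℝ) ≤ Module.finrank ℚ K := by
      exact_mod_cast Pool.Agent.U823.UA.one_le_finrank (K := K)
    constructor
    · intro F hF
      obtain ⟨μ, hμ⟩ := Pool.Agent.U823.UA.mean_lip (W := W) hb Λ₁ hΛ₁0 (by
        intro ε hε a
        obtain ⟨τ, hτ, h⟩ := hΛ (ε ^ 2 / 1152000) (by positivity) a
        refine ⟨τ, hτ, fun t => (h K W b hd hb t).trans (ENNReal.ofReal_le_ofReal ?_)⟩
        rw [div_le_iff₀ (by norm_num)]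
        nlinarith [sq_nonneg ε]) hF
      refine ⟨μ, fun η hη t H hH => ?_⟩
      have h2 := hμ η hη t H ((hΛ1 η).trans hH) (by
        refine le_trans ?_ (hΛ2 η hη H hH)
        have h3 := hΛ₁0 (η / 16) (by positivity)
        have h4 : 2304000 * (Module.finrank ℚ K : ℝ) ≤ 2304000 * ((d : ℝ) + 1) := by linarith
        exact mul_le_mul_of_nonneg_left (mul_le_mul_of_nonneg_right h4 (by linarith)) (by norm_num))
      have h5 : ∫ u in t..(t + H), F (Real.log ‖l u‖) =
          ∫ u in t..(t + H), F (Pool.Agent.U823.UA.Lg W b u) := by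
        refine intervalIntegral.integral_congr_ae ?_
        filter_upwards [h1] with u h3 _
        rw [h3]
        rfl
      rw [h5]
      exact h2
    · intro r hr
      obtain ⟨μ, hμ⟩ := Pool.Agent.U823.UA.mean_pow (W := W) hb Λ₁ hΛ₁0 (by
        intro ε hε a
        obtain ⟨τ, hτ, h⟩ := hΛ (ε ^ 2 / 1152000) (by positivity) a
        exact ⟨τ, hτ, fun t => h K W b hd hb t⟩) (r := r) (by
          refine le_trans ?_ hr
          exact mul_le_mul_of_nonneg_right (by linarith) (abs_nonneg r))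
      refine ⟨μ, fun η hη t H hH => ?_⟩
      have h2 := hμ η hη t H ((hΛ1 η).trans hH) (by
        refine le_trans ?_ (hΛ2 η hη H hH)
        have h3 := hΛ₁0 (η / 16) (by positivity)
        have h4 : (288000 : ℝ) ≤ 2304000 * ((d : ℝ) + 1) := by
          have : (0 : ℝ) ≤ d := Nat.cast_nonneg d
          linarith
        exact mul_le_mul_of_nonneg_left (mul_le_mul_of_nonneg_right h4 (by linarith)) (by norm_num))
      have h5 : ∫ u in t..(t + H), ‖l u‖ ^ r =
          ∫ u in t..(t + H), ‖Pool.Agent.TH345.ET.bv b (Pool.Agent.TH345.ET.hE W) u‖ ^ r := by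
        refine intervalIntegral.integral_congr_ae ?_
        filter_upwards [h1] with u h3 _
        rw [h3]
      rw [h5]
      exact h2

end Pool.Agent.Results.MP_7ed9c3_nt.UniversalAlmostPeriods
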